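import Pool.Agent.KS6_11.BA.Key2

set_option autoImplicit false

/-! Digit sequences whose running values return infinitely often to all members of a prescribed
sequence, and accumulate only there. -/

namespace Pool.Agent.KS6_11.BA

open Filter Topology MeasureTheory Set Pool.Agent.R331.BA

variable (w : ℕ → ℝ)

/-- the digit chosen at step `k` from the running value -/
noncomputable def dig (k : ℕ) (t : ℝ) : ℤ := if Even k then ⌊(w (k/2) - t) / τ k⌋ else 0

/-- running value -/
noncomputable def TT : ℕ → ℝ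
  | 0 => 0
  | (k+1) => TT k + dig w k (TT k) * τ k

/-- the digits -/
noncomputable def dd (k : ℕ) : ℤ := dig w k (TT w k)

theorem T_dd (k : ℕ) : T (dd w) k = TT w k := by
  induction k with
  | zero => simp [T, TT]
  | succ k ih =>
    rw [T_succ, ih]
    rfl

theorem dd_odd (n : ℕ) : dd w (2*n+1) = 0 := by
  unfold dd dig
  rw [if_neg]
  simp

theorem TT_odd (n : ℕ) : w n - τ (2*n) < TT w (2*n+1) ∧ TT w (2*n+1) ≤ w n := by
  have e : TT w (2*n+1) = TT w (2*n) + ⌊(w n - TT w (2*n)) / τ (2*n)⌋ * τ (2*n) := by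
    show TT w (2*n) + dig w (2*n) (TT w (2*n)) * τ (2*n) = _
    unfold dig
    rw [if_pos (by simp)]
    have : 2 * n / 2 = n := by omega
    rw [this]
  rw [e]
  have ht := τ_pos (2*n)
  have h1 := Int.floor_le ((w n - TT w (2*n)) / τ (2*n))
  have h2 := Int.lt_floor_add_one ((w n - TT w (2*n)) / τ (2*n))
  rw [le_div_iff₀ ht] at h1
  rw [div_lt_iff₀ ht] at h2
  constructor
  · linarith
  · linarith

theorem TT_even (n : ℕ) : TT w (2*n+2) = TT w (2*n+1) := by
  show TT w (2*n+1) + dig w (2*n+1) (TT w (2*n+1)) * τ (2*n+1) = _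
  have : dig w (2*n+1) (TT w (2*n+1)) = 0 := dd_odd w n
  rw [this]
  simp

theorem τ_anti (k m : ℕ) (h : k ≤ m) : τ m ≤ 4 / (3 * S k) := by
  refine (τ_hi' m).trans ?_
  have p := S_pos k
  obtain ⟨n, rfl⟩ := Nat.exists_eq_add_of_le h
  have h1 := S_shift k n
  have h2 : (1:ℝ) ≤ 4^n := one_le_pow₀ (by norm_num)
  have p2 := S_pos (k+n)
  apply div_le_div_of_nonneg_left (by norm_num) (by linarith)
  nlinarith

/-- the running values are close to the members of the sequence -/
theorem TT_close (k m : ℕ) (h : 2 * m + 1 ≤ k) : ∃ n, |TT w k - w n| ≤ 4 / (3 * S m) := by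
  rcases Nat.even_or_odd' k with ⟨n, rfl | rfl⟩
  · obtain ⟨n', rfl⟩ : ∃ n', n = n' + 1 := ⟨n - 1, by omega⟩
    have e : 2 * (n'+1) = 2 * n' + 2 := by ring
    refine ⟨n', ?_⟩
    rw [e, TT_even]
    have h1 := TT_odd w n'
    have h3 := τ_anti m (2*n') (by omega)
    rw [abs_le]
    constructor <;> linarith [h1.1, h1.2, τ_pos (2*n')]
  · refine ⟨n, ?_⟩
    have h1 := TT_odd w n
    have h3 := τ_anti m (2*n) (by omega)
    rw [abs_le]
    constructor <;> linarith [h1.1, h1.2, τ_pos (2*n)]

variable {w}

theorem adm_dd (hw : ∀ n, 0 ≤ w n ∧ w n ≤ 1) : Adm (dd w) := by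
  intro k
  have hp := S_pos k
  unfold dd dig
  split_ifs with h
  · have h2 := hw (k/2)
    have ht := τ_pos k
    have ht' := τ_lo' k
    set X := (w (k/2) - TT w k) / τ k with hX
    have h3 : |(⌊X⌋ : ℝ)| ≤ |X| + 1 := by
      have a1 := Int.floor_le X
      have a2 := Int.lt_floor_add_one X
      have a3 := abs_le.mp (le_refl |X|)
      rw [abs_le]
      constructor <;> linarith
    have hT : |w (k/2) - TT w k| ≤ 4/3 := by
      rcases Nat.eq_zero_or_pos k with rfl | h0
      · have : TT w 0 = 0 := rfl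
        rw [this, sub_zero, abs_of_nonneg h2.1]
        linarith
      · obtain ⟨n, hn⟩ := TT_close w k 0 (by omega)
        -- one has the better bound with `S 1 = 4`, as `k ≥ 2` is even
        have hk2 : 2 ≤ k := by
          rcases h with ⟨r, hr⟩
          omega
        obtain ⟨n', hn'⟩ : ∃ n', k = 2 * n' + 2 := by
          rcases h with ⟨r, hr⟩
          exact ⟨r - 1, by omega⟩
        have e1 : TT w k = TT w (2*n'+1) := by rw [hn', TT_even]
        have b1 := TT_odd w n'
        have b2 := hw n'
        have b3 := τ_anti 0 (2*n') (by omega)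
        rcases Nat.eq_zero_or_pos n' with h00 | h00
        · -- the first step starts from `0`
          subst h00
          have c1 : (0:ℝ) ≤ TT w 1 := by
            have e2 : TT w 1 = TT w 0 + ⌊(w 0 - TT w 0) / τ 0⌋ * τ 0 := by
              show TT w 0 + dig w 0 (TT w 0) * τ 0 = _
              unfold dig
              rw [if_pos (by simp)]
            have e3 : TT w 0 = 0 := rfl
            rw [e2, e3, sub_zero, zero_add]
            have c2 : (0:ℤ) ≤ ⌊w 0 / τ 0⌋ := Int.floor_nonneg.mpr (div_nonneg (hw 0).1 (τ_pos 0).le)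
            have c3 : (0:ℝ) ≤ (⌊w 0 / τ 0⌋ : ℝ) := by exact_mod_cast c2
            exact mul_nonneg c3 (τ_pos 0).le
          rw [e1, abs_le]
          have b4 := b1.2
          simp only [mul_zero, zero_add] at b4 ⊢
          constructor <;> linarith [h2.1, h2.2]
        · have b5 := τ_anti 1 (2*n') (by omega)
          have s1 : S 1 = 4 := by unfold S; norm_num [s]
          rw [s1] at b5
          rw [e1, abs_le]
          constructor <;> linarith [h2.1, h2.2, b1.1, b1.2]
    have h4 : |X| ≤ (4/3) * (2 * S k) := by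
      rw [hX, abs_div, abs_of_pos ht, div_le_iff₀ ht]
      have a2 : 1 ≤ (2 * S k) * τ k := by
        rw [div_le_iff₀ (by linarith)] at ht'
        linarith
      nlinarith
    linarith
  · simp
    linarith

theorem eventually_small (c : ℝ) (hc : 0 < c) : ∀ᶠ m in atTop, 4 / (3 * S m) < c := by
  have := S_tendsto.eventually_gt_atTop (4 / (3 * c))
  filter_upwards [this] with m hm
  have hp := S_pos m
  rw [div_lt_iff₀ (by positivity)] at hm ⊢
  linarith

/-- a real representative in `[0,1]` of a point of the circle -/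
theorem exists_rep (z : UnitAddCircle) : ∃ x : ℝ, 0 ≤ x ∧ x ≤ 1 ∧ (x : UnitAddCircle) = z := by
  have h := (AddCircle.equivIco (1:ℝ) 0 z).2
  exact ⟨(AddCircle.equivIco (1:ℝ) 0 z : ℝ), h.1, by linarith [h.2],
    AddCircle.coe_equivIco⟩

/-- **The key statement.** For every nonempty closed set `F` of the circle there is a horizontal
circle on which the badly approximable targets are exactly the points outside of `F`. -/
theorem exists_circle (F : Set UnitAddCircle) (hF : IsClosed F) (hne : F.Nonempty) :
    ∃ y : UnitAddCircle, ∀ t : UnitAddCircle,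
      (![t, y] : Torus 2) ∈ Bad (col α₁ α₂) ↔ t ∉ F := by
  classical
  have : Nonempty F := hne.to_subtype
  obtain ⟨f, hf⟩ := TopologicalSpace.exists_dense_seq F
  choose r hr0 hr1 hr using fun z : UnitAddCircle => exists_rep z
  set w : ℕ → ℝ := fun n => r (f (Nat.unpair n).1 : UnitAddCircle) with hwdef
  have hw : ∀ n, 0 ≤ w n ∧ w n ≤ 1 := fun n => ⟨hr0 _, hr1 _⟩
  have hwF : ∀ n, ((w n : ℝ) : UnitAddCircle) ∈ F := fun n => by
    rw [hwdef]
    show ((r (f (Nat.unpair n).1 : UnitAddCircle) : ℝ) : UnitAddCircle) ∈ F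
    rw [hr]
    exact (f (Nat.unpair n).1).2
  have hadm := adm_dd hw
  obtain ⟨x₂, hx⟩ := exists_x₂ hadm
  refine ⟨(x₂ : UnitAddCircle), fun t => ?_⟩
  obtain ⟨u, -, -, rfl⟩ := exists_rep t
  constructor
  · intro hbad huF
    refine not_bad hadm hx u ?_ hbad
    intro κ hκ
    rw [frequently_atTop]
    intro N
    -- a member of the dense sequence close to `u`
    obtain ⟨j, hj⟩ : ∃ j, dist (⟨(u : UnitAddCircle), huF⟩ : F) (f j) < κ / 2 := by
      exact hf.exists_dist_lt _ (by linarith)
    obtain ⟨m, hm⟩ := (eventually_small (κ/2) (by linarith)).exists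
    set n : ℕ := Nat.pair j (max N m) with hn
    have hn1 : max N m ≤ n := Nat.right_le_pair _ _
    have hwn : w n = r (f j : UnitAddCircle) := by
      rw [hwdef]
      show r (f (Nat.unpair n).1 : UnitAddCircle) = _
      rw [hn, Nat.unpair_pair]
    have hd : ‖((u - w n : ℝ) : UnitAddCircle)‖ < κ / 2 := by
      have h1 : ((u - w n : ℝ) : UnitAddCircle) = (u : UnitAddCircle) - (f j : UnitAddCircle) := by
        rw [hwn]
        rw [AddCircle.coe_sub, hr (f j : UnitAddCircle)]
      rw [h1, ← dist_eq_norm]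
      exact hj
    obtain ⟨p, hp⟩ := circle_norm_ex (u - w n)
    rw [hp] at hd
    refine ⟨2*n, by have := le_max_left N m; omega, dd_odd w n, -p, ?_⟩
    rw [T_dd]
    have h1 := TT_odd w n
    have h2 := τ_anti m (2*n) (by have := le_max_right N m; omega)
    have h3 := abs_lt.mp hd
    push_cast
    rw [abs_lt]
    constructor <;> linarith [h1.1, h1.2, h3.1, h3.2]
  · intro huF
    obtain ⟨δ, hδ, hball⟩ := Metric.isOpen_iff.mp hF.isOpen_compl (u : UnitAddCircle) huF
    have hfar : ∀ n (p : ℤ), δ ≤ |u - w n - p| := by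
      intro n p
      by_contra hcon
      push Not at hcon
      have h1 : ‖((u - w n : ℝ) : UnitAddCircle)‖ < δ := (circle_norm_le _ p).trans_lt hcon
      have h2 : ((w n : ℝ) : UnitAddCircle) ∈ Fᶜ := by
        apply hball
        rw [Metric.mem_ball, dist_comm, dist_eq_norm]
        have e : (u : UnitAddCircle) - ((w n : ℝ) : UnitAddCircle) =
            ((u - w n : ℝ) : UnitAddCircle) := by rw [AddCircle.coe_sub]
        rw [e]
        exact h1
      exact h2 (hwF n)
    refine bad_of_far hadm hx u (δ := δ/2) (by linarith) ?_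
    obtain ⟨m, hm⟩ := (eventually_small (δ/2) (by linarith)).exists
    filter_upwards [eventually_ge_atTop (2*m+1)] with i hi p
    rw [T_dd]
    obtain ⟨n, hn⟩ := TT_close w i m hi
    have h1 := hfar n p
    have e : u - w n - p = (u - TT w i - p) + (TT w i - w n) := by ring
    rw [e] at h1
    have h2 := abs_add_le (u - TT w i - p) (TT w i - w n)
    linarith

/-- the measure of the badly approximable targets on such a circle -/
theorem haar_eq (F : Set UnitAddCircle) (y : UnitAddCircle)
    (h : ∀ t : UnitAddCircle, (![t, y] : Torus 2) ∈ Bad (col α₁ α₂) ↔ t ∉ F) :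
    (hor y).haar (Bad (col α₁ α₂)) = volume Fᶜ := by
  unfold Coset.haar
  rw [Measure.map_apply (hor_meas y) (measurableSet_Bad _)]
  have e : (fun t : Torus 1 => (hor y).x + (hor y).φ t) ⁻¹' (Bad (col α₁ α₂)) =
      (MeasurableEquiv.funUnique (Fin 1) UnitAddCircle) ⁻¹' Fᶜ := by
    ext t
    rw [mem_preimage, hor_apply, h]
    rfl
  rw [e]
  exact (MeasureTheory.volume_preserving_funUnique (Fin 1) UnitAddCircle).measure_preimage_equiv Fᶜ

end Pool.Agent.KS6_11.BA
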