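import Pool.Graph.R_seed8.R331.BA.Meas

set_option autoImplicit false

/-! Quantitative versions, with an arbitrary precision, of the two criteria of the library for a
target on a horizontal circle to be (or not to be) badly approximable. -/

namespace Pool.Agent.KS6_11.BA

open Filter Topology Finset Pool.Agent.R331.BA

theorem key {d : ℕ → ℤ} (hd : Adm d) {x₂ : ℝ} (hx : ∀ m, |x₂ - P d m| ≤ 5 / S m)
    {θ : ℝ} (hθ0 : 0 < θ) (hθ1 : θ ≤ 1 / 4) (i : ℕ)
    (hi : 8 / θ ≤ S i) (q p : ℤ) (h1 : θ * S (i+1) ≤ |(q:ℝ)|) (h2 : |(q:ℝ)| ≤ θ * S (i+2))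
    (h3 : (q * α₂ - x₂ - p)^2 * |(q:ℝ)| < (θ^2)^2) :
    ∃ n : ℤ, |q * α₁ - n - T d (i+1)| ≤ 12 * θ := by
  obtain ⟨l, j, hR, hp, hj⟩ := decomp i (q - Q d (i+1)) (p - B d (i+1))
  have hR' : (q:ℝ) - Q d (i+1) = l * S (i+1) + j * S i := by
    unfold S
    exact_mod_cast hR
  have p0 := S_pos i
  have p1 := S_pos (i+1)
  have p2 := S_pos (i+2)
  have q1 := S_lo i
  have q2 := S_lo (i+1)
  have r1 := S_hi i
  have f1 := S_four i
  have f2 := S_four (i+1)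
  have hi8 : 8 ≤ θ * S i := by
    rw [div_le_iff₀ hθ0] at hi
    linarith
  -- X = |q α₂ - x₂ - p|
  set X : ℝ := q * α₂ - x₂ - p with hX
  have hX1 : (S (i+1) * X)^2 ≤ (2 * θ * S i)^2 := by
    have a1 : X^2 * (θ * S (i+1)) ≤ X^2 * |(q:ℝ)| := mul_le_mul_of_nonneg_left h1 (sq_nonneg X)
    have a2 : θ * (X^2 * S (i+1)) < θ * θ^3 := by nlinarith
    have a2' : X^2 * S (i+1) < θ^3 := lt_of_mul_lt_mul_left a2 hθ0.le
    have a3 : (S (i+1) * X)^2 = (X^2 * S (i+1)) * S (i+1) := by ring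
    rw [a3]
    have a4 : (X^2 * S (i+1)) * S (i+1) ≤ θ^3 * (4 * (S i)^2) := by
      apply mul_le_mul a2'.le r1 (by linarith) (by positivity)
    have a5 : θ^3 ≤ θ^2 := by
      have : θ^3 = θ^2 * θ := by ring
      rw [this]
      have h0 : 0 ≤ θ^2 := by positivity
      nlinarith
    calc _ ≤ θ^3 * (4 * (S i)^2) := a4
      _ ≤ θ^2 * (4 * (S i)^2) := mul_le_mul_of_nonneg_right a5 (by positivity)
      _ = (2 * θ * S i)^2 := by ring
  have hX2 : |S (i+1) * X| ≤ 2 * θ * S i := abs_le_of_sq_le_sq hX1 (by positivity)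
  -- the tail
  have hxi : |S (i+1) * (x₂ - P d (i+1))| ≤ 5 := by
    have := hx (i+1)
    rw [abs_mul, abs_of_pos (by linarith : 0 < S (i+1))]
    calc S (i+1) * |x₂ - P d (i+1)| ≤ S (i+1) * (5 / S (i+1)) :=
          mul_le_mul_of_nonneg_left this (by linarith)
      _ = 5 := by field_simp
  have hQ := Q_bound hd (i+1)
  have hRb : |(q:ℝ) - Q d (i+1)| ≤ θ * S (i+2) + 3 * S (i+1) := by
    have := abs_sub (q:ℝ) (Q d (i+1))
    linarith
  have hRs : |((q:ℝ) - Q d (i+1)) * σ (i+1)| ≤ 1 := by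
    rw [abs_mul, abs_of_pos (σ_pos (i+1))]
    have h5 := σ_hi (i+1)
    have : |(q:ℝ) - Q d (i+1)| * σ (i+1) ≤ (θ * S (i+2) + 3 * S (i+1)) * (2 / S (i+2)) :=
      mul_le_mul hRb h5 (σ_pos (i+1)).le (by positivity)
    refine this.trans ?_
    have e : (θ * S (i+2) + 3 * S (i+1)) * (2 / S (i+2)) = 2 * θ + 6 * S (i+1) / S (i+2) := by
      field_simp
      ring
    rw [e]
    have : 6 * S (i+1) / S (i+2) ≤ 1/2 := by
      rw [div_le_div_iff₀ (by positivity) (by norm_num)]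
      have : 8 ≤ S (i+1) := by nlinarith
      nlinarith
    linarith
  have hjb : |(j:ℝ)| ≤ 2 * θ * S i + 6 := by
    have e : (j:ℝ) = S (i+1) * X + S (i+1) * (x₂ - P d (i+1)) - ((q:ℝ) - Q d (i+1)) * σ (i+1) := by
      rw [hj, P_eq]
      push_cast
      rw [hX]
      ring
    rw [e]
    have a1 := abs_sub (S (i+1) * X + S (i+1) * (x₂ - P d (i+1))) (((q:ℝ) - Q d (i+1)) * σ (i+1))
    have a2 := abs_add_le (S (i+1) * X) (S (i+1) * (x₂ - P d (i+1)))
    linarith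
  have hjb3 : |(j:ℝ)| ≤ 3 * θ * S i := by linarith
  have hjt : |(j:ℝ) * τ i| ≤ 4 * θ := by
    rw [abs_mul, abs_of_pos (τ_pos i)]
    have : |(j:ℝ)| * τ i ≤ (3 * θ * S i) * (4 / (3 * S i)) :=
      mul_le_mul hjb3 (τ_hi' i) (τ_pos i).le (by positivity)
    refine this.trans ?_
    have e : (3 * θ * S i) * (4 / (3 * S i)) = 4 * θ := by
      field_simp
    rw [e]
  have hl : |(l:ℝ)| * S (i+1) ≤ θ * S (i+2) + 3 * S (i+1) + (3 * θ * S i) * S i := by
    have e : (l:ℝ) * S (i+1) = ((q:ℝ) - Q d (i+1)) - j * S i := by linarith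
    have a1 : |(l:ℝ)| * S (i+1) = |(l:ℝ) * S (i+1)| := by
      rw [abs_mul, abs_of_pos (by linarith : 0 < S (i+1))]
    rw [a1, e]
    have a2 := abs_sub ((q:ℝ) - Q d (i+1)) (j * S i)
    have a3 : |(j:ℝ) * S i| ≤ (3 * θ * S i) * S i := by
      rw [abs_mul, abs_of_pos (by linarith : 0 < S i)]
      exact mul_le_mul_of_nonneg_right hjb3 (by linarith)
    linarith
  have hl2 : |(l:ℝ)| * S (i+1) ≤ 2 * θ * S (i+2) := by
    have b1 : (3 * θ * S i) * S i ≤ S (i+1) := by nlinarith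
    have b2 : 8 ≤ θ * S (i+1) := by nlinarith
    have b3 : 4 * S (i+1) ≤ θ * S (i+2) := by nlinarith
    linarith
  have hlt : |(l:ℝ) * τ (i+1)| ≤ 8 * θ := by
    rw [abs_mul, abs_of_pos (τ_pos (i+1))]
    have a1 : |(l:ℝ)| * τ (i+1) ≤ |(l:ℝ)| * (4 * S (i+1) / S (i+2)) :=
      mul_le_mul_of_nonneg_left (τ_hi (i+1)) (abs_nonneg _)
    refine a1.trans ?_
    have e : |(l:ℝ)| * (4 * S (i+1) / S (i+2)) = (|(l:ℝ)| * S (i+1)) * 4 / S (i+2) := by ring
    rw [e, div_le_iff₀ (by positivity)]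
    nlinarith
  refine ⟨l * a (i+1) + j * a i + Aa d (i+1), ?_⟩
  have e : (q:ℝ) * α₁ - ((l * a (i+1) + j * a i + Aa d (i+1) : ℤ) : ℝ) - T d (i+1) =
      l * τ (i+1) + j * τ i := by
    rw [T_eq]
    unfold τ
    push_cast
    linear_combination α₁ * hR'
  rw [e]
  have := abs_add_le ((l:ℝ) * τ (i+1)) (j * τ i)
  linarith

theorem exists_scale {θ : ℝ} (hθ : 0 < θ) {X : ℝ} {i₀ : ℕ} (h : θ * S (i₀+1) ≤ X) :
    ∃ i, i₀ ≤ i ∧ θ * S (i+1) ≤ X ∧ X ≤ θ * S (i+2) := by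
  have hex : ∃ i, i₀ ≤ i ∧ X < θ * S (i+2) := by
    have h1 : ∀ᶠ i in atTop, (X + 1) / θ ≤ S (i+2) :=
      (S_tendsto.comp (tendsto_add_atTop_nat 2)).eventually_ge_atTop _
    obtain ⟨i, hi1, hi2⟩ := (h1.and (eventually_ge_atTop i₀)).exists
    rw [div_le_iff₀ hθ] at hi1
    exact ⟨i, hi2, by linarith⟩
  classical
  obtain ⟨h1, h2⟩ := Nat.find_spec hex
  refine ⟨Nat.find hex, h1, ?_, h2.le⟩
  by_contra hcon
  push Not at hcon
  rcases Nat.lt_or_ge i₀ (Nat.find hex) with h3 | h3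
  · have h4 := Nat.find_min hex (m := Nat.find hex - 1) (by omega)
    apply h4
    refine ⟨by omega, ?_⟩
    have : Nat.find hex - 1 + 2 = Nat.find hex + 1 := by omega
    rw [this]
    exact hcon
  · have : Nat.find hex = i₀ := le_antisymm h3 h1
    rw [this] at hcon
    linarith

/-- A target stays badly approximable if it has a positive distance from the running values. -/
theorem bad_of_far {d : ℕ → ℤ} (hd : Adm d) {x₂ : ℝ} (hx : ∀ m, |x₂ - P d m| ≤ 5 / S m) (u : ℝ)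
    {δ : ℝ} (hδ : 0 < δ) (hu : ∀ᶠ i in atTop, ∀ n : ℤ, δ ≤ |u - T d i - n|) :
    (![(u : UnitAddCircle), (x₂ : UnitAddCircle)] : Torus 2) ∈ Bad (col α₁ α₂) := by
  obtain ⟨θ, hθ0, hθ1, hθ2⟩ : ∃ θ : ℝ, 0 < θ ∧ θ ≤ 1/4 ∧ 13 * θ < δ :=
    ⟨min (1/4) (δ / 14), lt_min (by norm_num) (by positivity), min_le_left _ _, by
      have := min_le_right (1/4) (δ / 14)
      linarith⟩
  obtain ⟨i₁, hi₁⟩ := eventually_atTop.mp hu
  obtain ⟨i₂, hi₂⟩ := eventually_atTop.mp (S_tendsto.eventually_ge_atTop (8 / θ))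
  set i₀ := max i₁ i₂ with hi₀
  refine ⟨θ^2, by positivity, θ * S (i₀+1), fun q hq => ?_⟩
  by_contra hcon
  push Not at hcon
  rw [orb_sub, norm_two] at hcon
  rw [norm_one] at hcon hq
  have hpos : 1 ≤ |(q 0 : ℝ)| := by
    have h1 := hi₂ i₀ (le_max_right _ _)
    have h2 := S_four i₀
    rw [div_le_iff₀ hθ0] at h1
    nlinarith
  have hc := close_of_lt (abs_nonneg _) (le_max_of_le_left (norm_nonneg _)) (by positivity) hcon
  obtain ⟨p, hp⟩ := circle_norm_ex (q 0 * α₂ - x₂)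
  obtain ⟨n', hn'⟩ := circle_norm_ex (q 0 * α₁ - u)
  have hc2 : (q 0 * α₂ - x₂ - p)^2 * |(q 0:ℝ)| < (θ^2)^2 := by
    refine lt_of_le_of_lt ?_ hc
    apply mul_le_mul_of_nonneg_right _ (abs_nonneg _)
    rw [← sq_abs, ← hp]
    exact pow_le_pow_left₀ (norm_nonneg _) (le_max_right _ _) 2
  have hc1 : |q 0 * α₁ - u - n'| ≤ θ^2 := by
    rw [← hn']
    have h1 : ‖((q 0 * α₁ - u : ℝ) : UnitAddCircle)‖^2 * 1 < (θ^2)^2 := by
      refine lt_of_le_of_lt ?_ hc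
      apply mul_le_mul _ hpos (by norm_num) (sq_nonneg _)
      exact pow_le_pow_left₀ (norm_nonneg _) (le_max_left _ _) 2
    rw [mul_one] at h1
    exact (lt_of_pow_lt_pow_left₀ 2 (by positivity) h1).le
  have hθ2' : θ^2 ≤ θ := by nlinarith
  obtain ⟨i, hi, hs1, hs2⟩ := exists_scale hθ0 hq
  obtain ⟨n, hn⟩ := key hd hx hθ0 hθ1 i (hi₂ i (le_trans (le_max_right _ _) hi)) (q 0) p hs1 hs2 hc2
  have hf := hi₁ (i+1) (by have := le_max_left i₁ i₂; omega) (n - n')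
  have e : u - T d (i+1) - ((n - n' : ℤ) : ℝ) =
      (q 0 * α₁ - n - T d (i+1)) - (q 0 * α₁ - u - n') := by
    push_cast
    ring
  rw [e] at hf
  have := abs_sub (q 0 * α₁ - n - T d (i+1)) (q 0 * α₁ - u - n')
  linarith

/-- A target is not badly approximable if it is a limit of the running values followed by a digit
zero. -/
theorem not_bad {d : ℕ → ℤ} (hd : Adm d) {x₂ : ℝ} (hx : ∀ m, |x₂ - P d m| ≤ 5 / S m) (u : ℝ)
    (hu : ∀ κ : ℝ, 0 < κ → ∃ᶠ i in atTop, d (i+1) = 0 ∧ ∃ n : ℤ, |u + n - T d (i+1)| < κ) :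
    (![(u : UnitAddCircle), (x₂ : UnitAddCircle)] : Torus 2) ∉ Bad (col α₁ α₂) := by
  rintro ⟨c, hc, N, hN⟩
  obtain ⟨κ, hκ0, hκ1, hκ2⟩ : ∃ κ : ℝ, 0 < κ ∧ κ ≤ c^2 / 400 ∧ κ ≤ 1/5 :=
    ⟨min (c^2/400) (1/5), by positivity, min_le_left _ _, min_le_right _ _⟩
  have hev : ∀ᶠ i in atTop, max N (max 1000 (100 / κ)) ≤ S i := S_tendsto.eventually_ge_atTop _
  obtain ⟨i, ⟨hd0, n0, hu1⟩, hi⟩ := ((hu κ hκ0).and_eventually hev).exists
  have hS1 : N ≤ S i := le_trans (le_max_left _ _) hi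
  have hS2 : 1000 ≤ S i := le_trans (le_max_left _ _) (le_trans (le_max_right _ _) hi)
  have hS3 : 100 / κ ≤ S i := le_trans (le_max_right _ _) (le_trans (le_max_right _ _) hi)
  have hS3' : 100 ≤ κ * S i := by
    rw [div_le_iff₀ hκ0] at hS3
    linarith
  have p1 := S_pos (i+1)
  have p2 := S_pos (i+2)
  have f1 := S_four i
  have hκS : 100 ≤ κ * S (i+1) := by nlinarith
  set t := τ (i+1) with ht
  have ht0 : 0 < t := τ_pos (i+1)
  have ht1 := τ_lo' (i+1)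
  have ht2 := τ_hi' (i+1)
  set v : ℝ := u + n0 - T d (i+1) with hv
  have hv1 := abs_lt.mp hu1
  -- the multiple of `t`
  obtain ⟨l, hl4, hlt, hlb'⟩ : ∃ l : ℤ, (4:ℝ) ≤ |(l:ℝ)| ∧ |l * t - v| ≤ 5 * t ∧
      |(l:ℝ)| * t ≤ κ + 5 * t := by
    have g1 := Int.floor_le (v / t)
    have g2 := Int.lt_floor_add_one (v / t)
    rw [le_div_iff₀ ht0] at g1
    rw [div_lt_iff₀ ht0] at g2
    rcases le_or_gt 0 v with hv0 | hv0
    · have h0 : (0:ℤ) ≤ ⌊v / t⌋ := Int.floor_nonneg.mpr (by positivity)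
      have h0' : (0:ℝ) ≤ (⌊v / t⌋ : ℝ) := by exact_mod_cast h0
      refine ⟨⌊v / t⌋ + 4, ?_, ?_, ?_⟩
      · push_cast
        rw [abs_of_nonneg (by linarith)]
        linarith
      · push_cast
        rw [abs_le]
        constructor <;> nlinarith
      · push_cast
        rw [abs_of_nonneg (by linarith)]
        nlinarith
    · have h0 : ⌊v / t⌋ < 0 := Int.floor_lt.mpr (by
        rw [Int.cast_zero]
        exact div_neg_of_neg_of_pos hv0 ht0)
      have h0' : (⌊v / t⌋ : ℝ) < 0 := by exact_mod_cast h0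
      refine ⟨⌊v / t⌋ - 4, ?_, ?_, ?_⟩
      · push_cast
        rw [abs_of_nonpos (by linarith)]
        linarith
      · push_cast
        rw [abs_le]
        constructor <;> nlinarith
      · push_cast
        rw [abs_of_nonpos (by linarith)]
        nlinarith
  have hlb : |(l:ℝ)| ≤ 2 * κ * S (i+1) + 5 := by
    have h1 : (|(l:ℝ)| - 5) * t ≤ κ := by linarith
    rcases le_or_gt (|(l:ℝ)|) 5 with h5 | h5
    · have : 0 ≤ κ * S (i+1) := by linarith
      linarith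
    have h2 : (|(l:ℝ)| - 5) * (1 / (2 * S (i+1))) ≤ κ :=
      (mul_le_mul_of_nonneg_left ht1 (by linarith)).trans h1
    have e : (|(l:ℝ)| - 5 : ℝ) * (1 / (2 * S (i+1))) = (|(l:ℝ)| - 5) / (2 * S (i+1)) := by ring
    rw [e, div_le_iff₀ (by positivity)] at h2
    linarith
  set q0 : ℤ := Q d (i+1) + l * s (i+1) with hq0
  have hq0r : (q0:ℝ) = Q d (i+1) + l * S (i+1) := by
    rw [hq0]
    unfold S
    push_cast
    ring
  have hQ := Q_bound hd (i+1)
  have hlS : |(l:ℝ) * S (i+1)| = |(l:ℝ)| * S (i+1) := by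
    rw [abs_mul, abs_of_pos (by linarith : 0 < S (i+1))]
  have hqlo : S (i+1) ≤ |(q0:ℝ)| := by
    have h1 : |(l:ℝ) * S (i+1)| ≤ |(q0:ℝ)| + |(Q d (i+1):ℝ)| := by
      have e : (l:ℝ) * S (i+1) = (q0:ℝ) - Q d (i+1) := by rw [hq0r]; ring
      rw [e]
      exact abs_sub _ _
    rw [hlS] at h1
    nlinarith
  have hqhi : |(q0:ℝ)| ≤ 3 * κ * (S (i+1))^2 := by
    rw [hq0r]
    have h0 := abs_add_le (Q d (i+1):ℝ) (l * S (i+1))
    rw [hlS] at h0
    have h1 : |(l:ℝ)| * S (i+1) ≤ (2 * κ * S (i+1) + 5) * S (i+1) :=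
      mul_le_mul_of_nonneg_right hlb (by linarith)
    have h2 : 100 * S (i+1) ≤ κ * S (i+1) * S (i+1) :=
      mul_le_mul_of_nonneg_right hκS (by linarith)
    nlinarith
  have hq := hN (fun _ => q0) (by
    rw [norm_one]
    show N ≤ |(q0:ℝ)|
    linarith)
  rw [orb_sub, norm_two, norm_one] at hq
  have hn1 : ‖((q0 * α₁ - u : ℝ) : UnitAddCircle)‖ ≤ 7 / S (i+1) := by
    refine (circle_norm_le _ (Aa d (i+1) + l * a (i+1) + n0)).trans ?_
    have e : (q0:ℝ) * α₁ - u - ((Aa d (i+1) + l * a (i+1) + n0 : ℤ) : ℝ) = l * t - v := by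
      rw [hv, T_eq, hq0r, ht]
      unfold τ
      push_cast
      ring
    rw [e]
    refine hlt.trans ?_
    have h2 : 5 * t ≤ 5 * (4 / (3 * S (i+1))) := by linarith
    refine h2.trans ?_
    have e2 : 5 * (4 / (3 * S (i+1))) = (20/3) / S (i+1) := by
      field_simp
      norm_num
    rw [e2]
    apply div_le_div_of_nonneg_right (by norm_num) (by linarith)
  have hn2 : ‖((q0 * α₂ - x₂ : ℝ) : UnitAddCircle)‖ ≤ (5 * κ + 1) / S (i+1) := by
    refine (circle_norm_le _ (B d (i+1) + l * b (i+1))).trans ?_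
    have e : (q0:ℝ) * α₂ - x₂ - ((B d (i+1) + l * b (i+1) : ℤ) : ℝ) =
        l * σ (i+1) - (x₂ - P d (i+2)) := by
      have h0 : P d (i+2) = P d (i+1) := by
        rw [P_succ d (i+1), hd0]
        simp
      rw [h0, P_eq, hq0r]
      unfold σ
      push_cast
      ring
    rw [e]
    have h1 := abs_sub (l * σ (i+1)) (x₂ - P d (i+2))
    have h2 := hx (i+2)
    have h3 : |(l:ℝ) * σ (i+1)| ≤ (2 * κ * S (i+1) + 5) * (2 / S (i+2)) := by
      rw [abs_mul, abs_of_pos (σ_pos (i+1))]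
      exact mul_le_mul hlb (σ_hi (i+1)) (σ_pos (i+1)).le (by positivity)
    have h4 : (2 * κ * S (i+1) + 5) * (2 / S (i+2)) + 5 / S (i+2) = (4 * κ * S (i+1) + 15) / S (i+2) := by
      field_simp
      ring
    have h5 : (4 * κ * S (i+1) + 15) / S (i+2) ≤ (5 * κ + 1) / S (i+1) := by
      rw [div_le_div_iff₀ (by positivity) (by positivity)]
      have g1 := S_lo (i+1)
      have g2 : (5 * κ + 1) * (3 * (S (i+1))^2) ≤ (5 * κ + 1) * S (i+2) :=
        mul_le_mul_of_nonneg_left g1 (by positivity)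
      nlinarith
    linarith
  have hmax2 : max ‖((q0 * α₁ - u : ℝ) : UnitAddCircle)‖ ‖((q0 * α₂ - x₂ : ℝ) : UnitAddCircle)‖ ≤
      7 / S (i+1) := by
    apply max_le hn1
    refine hn2.trans ?_
    apply div_le_div_of_nonneg_right (by linarith) (by linarith)
  refine absurd hq (not_le.mpr (lt_of_close (abs_nonneg _) hc ?_))
  have h1 : (max ‖((q0 * α₁ - u : ℝ) : UnitAddCircle)‖ ‖((q0 * α₂ - x₂ : ℝ) : UnitAddCircle)‖)^2 *
      |(q0:ℝ)| ≤ (7 / S (i+1))^2 * (3 * κ * (S (i+1))^2) := by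
    apply mul_le_mul _ hqhi (abs_nonneg _) (by positivity)
    exact pow_le_pow_left₀ (le_max_of_le_left (norm_nonneg _)) hmax2 2
  have e : (7 / S (i+1))^2 * (3 * κ * (S (i+1))^2) = 147 * κ := by
    field_simp
    norm_num
  rw [e] at h1
  have : 0 < c^2 := by positivity
  linarith

end Pool.Agent.KS6_11.BA
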